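import Pool.Agent.Q189.Trapezoid

/-!
# MP_b12348_gt: a simplicial refinement which does not factor through the projection simplex

The model is a trapezoid in the plane, the simplex of the refinement is four dimensional.
-/

set_option autoImplicit false

namespace Pool.Agent.Results.MP_b12348_gt.NoFactorisation

open Q189.SimpDefs Q189.SimpBuild Q189.Trapezoid

/-- `h = h₂ ∘ h₁` as partial maps, including equality of domains. -/
def IsComp {U V W : Type} [AddCommGroup U] [Module ℝ U] [AddCommGroup V] [Module ℝ V]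
    [AddCommGroup W] [Module ℝ W] {X : Set U} {Y : Set V} {Z : Set W}
    (h : PartialAffineOnto X Z) (h₂ : PartialAffineOnto Y Z) (h₁ : PartialAffineOnto X Y) : Prop :=
  h.dom = {x | x ∈ h₁.dom ∧ h₁.toFun x ∈ h₂.dom} ∧ ∀ x ∈ h.dom, h.toFun x = h₂.toFun (h₁.toFun x)

/-- **Theorem.** There are a polytope `C` in the plane which is not a simplex, with extreme points
`c 0, ..., c 3`, and a simplicial refinement `(T, Ω_T, f, g)` of `(C, Ω_C)`, with `T` a four
dimensional simplex with vertices `v 0, ..., v 4`, such that, for every 3-simplex `T₀` with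
vertices `e 0, ..., e 3` and the total affine map `p : T₀ → C` with `p (e i) = c i`, there are no
`g₀`, `f'`, `g'` for which `(T₀, Ω_T₀, p, g₀)` is a simplicial refinement of `(C, Ω_C)`,
`(T, Ω_T, f', g')` is a simplicial refinement of `(T₀, Ω_T₀)`, `f = p ∘ f'` and `g = g₀ ∘ g'`. -/
theorem result : ∃ (C : Set (Fin 2 → ℝ)) (c : Fin 4 → (Fin 2 → ℝ)) (v : Fin 5 → (Fin 5 → ℝ))
    (f : PartialAffineOnto (hull v) C)
    (g : PartialAffineOnto (convexForms (hull v)) (convexForms C)),
    IsPolytope C ∧ ¬ IsSimplex C ∧ Function.Injective c ∧ Set.range c = C.extremePoints ℝ ∧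
      IsSimplicialRefinement v C f g ∧
      ∀ (V₀ : Type) [AddCommGroup V₀] [Module ℝ V₀] (e : Fin 4 → V₀), AffineIndependent ℝ e →
        ∀ p : PartialAffineOnto (hull e) C, p.dom = hull e → (∀ i, p.toFun (e i) = c i) →
          ¬ ∃ (g₀ : PartialAffineOnto (convexForms (hull e)) (convexForms C))
            (f' : PartialAffineOnto (hull v) (hull e))
            (g' : PartialAffineOnto (convexForms (hull v)) (convexForms (hull e))),
            IsSimplicialRefinement e C p g₀ ∧ IsSimplicialRefinement v (hull e) f' g' ∧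
              IsComp f p f' ∧ IsComp g g₀ g' := by
  refine ⟨img A F, fun i => F (A i), vtx 5, fmap A hA F, gmap A hA F H, polytope, not_simplex, inj,
    ?_, isRef A hA F H, ?_⟩
  · apply Set.Subset.antisymm
    · rintro _ ⟨i, rfl⟩
      exact ext_all i
    · exact extremePoints_convexHull_subset
  · intro V₀ _ _ e he p hp hpe
    rintro ⟨g₀, f', g', -, ⟨-, hcompat⟩, ⟨hdom, hval⟩, -⟩
    have hdom' : (fmap A hA F).dom = f'.dom := by
      rw [hdom]
      ext x
      constructor
      · exact fun h => h.1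
      · intro h
        refine ⟨h, ?_⟩
        rw [hp]
        exact f'.onto.subset ⟨x, h, rfl⟩
    have hFA : ∀ i, F (A i) = ![![0, 0], ![3, 0], ![2, 1], ![1, 1]] i := fun i => congrFun FA i
    -- the preimages of the vertices `e 2`, `e 3`
    have hpre : ∀ (i : Fin 4) (a b : ℝ), (∀ j, j ≠ i → lin a b (F (A j)) < lin a b (F (A i))) →
        A i ∈ f'.dom ∧ f'.toFun (A i) = e i := by
      intro i a b hab
      obtain ⟨x, hx, hxe⟩ : e i ∈ f'.toFun '' f'.dom := by
        rw [f'.onto]; exact subset_convexHull ℝ _ ⟨i, rfl⟩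
      have hxd : x ∈ hull A := by
        have : x ∈ (fmap A hA F).dom := by rw [hdom']; exact hx
        exact this
      have hFx : F x = F (A i) := by
        have h1 := hval x (by rw [hdom']; exact hx)
        rw [hxe, hpe] at h1
        exact h1
      rcases only_max A i ((lin a b).comp F) hab x hxd with h | h
      · rw [← h]; exact ⟨hx, hxe⟩
      · exfalso
        simp only [LinearMap.comp_apply] at h
        rw [hFx] at h
        exact lt_irrefl _ h
    obtain ⟨m2, v2⟩ := hpre 2 1 2 (by
      intro j hj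
      rw [hFA, hFA]
      fin_cases j <;> simp [lin] at hj ⊢ <;> norm_num)
    obtain ⟨m3, v3⟩ := hpre 3 (-1) 3 (by
      intro j hj
      rw [hFA, hFA]
      fin_cases j <;> simp [lin] at hj ⊢ <;> norm_num)
    -- an effect on `T₀` which separates `e 2` and `e 3`
    have hli := (affineIndependent_iff_linearIndependent_vsub ℝ e (3 : Fin 4)).1 he
    obtain ⟨φ, hφ⟩ : ∃ φ : V₀ →ₗ[ℝ] ℝ, ∀ i : {x : Fin 4 // x ≠ 3},
        φ (e i - e 3) = if (i : Fin 4) = 2 then 1 else 0 := by
      obtain ⟨φ, hφ⟩ := LinearMap.exists_extend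
        ((Module.Basis.span hli).constr ℝ (fun i : {x : Fin 4 // x ≠ 3} =>
          if (i : Fin 4) = 2 then (1 : ℝ) else 0))
      refine ⟨φ, fun i => ?_⟩
      have h1 := (Module.Basis.span hli).constr_basis ℝ (fun i : {x : Fin 4 // x ≠ 3} =>
          if (i : Fin 4) = 2 then (1 : ℝ) else 0) i
      rw [← h1, ← hφ, LinearMap.comp_apply]
      congr 1
      rw [Module.Basis.span_apply]
      rfl
    have hφe : ∀ i : Fin 4, φ (e i - e 3) = if i = 2 then 1 else 0 := by
      intro i
      by_cases hi : i = 3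
      · subst hi; simp
      · exact hφ ⟨i, hi⟩
    set ω0 : hull e → ℝ := fun x => φ ((x : V₀) - e 3) with hω0
    have hω0m : ω0 ∈ convexForms (hull e) := by
      constructor
      · have hsub : hull e ⊆ {x | φ (x - e 3) ∈ Set.Icc (0 : ℝ) 1} := by
          apply convexHull_min
          · rintro _ ⟨i, rfl⟩
            simp only [Set.mem_setOf_eq]
            rw [hφe]
            split_ifs <;> simp
          · intro x hx y hy a b ha hb hab
            have h1 : φ (a • x + b • y - e 3) = a * φ (x - e 3) + b * φ (y - e 3) := by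
              have : a • x + b • y - e 3 = a • (x - e 3) + b • (y - e 3) := by
                have : e 3 = (a + b) • e 3 := by rw [hab, one_smul]
                nth_rewrite 1 [this]
                module
              rw [this]; simp
            simp only [Set.mem_setOf_eq] at hx hy ⊢
            rw [h1]
            obtain ⟨h2, h3⟩ := hx
            obtain ⟨h4, h5⟩ := hy
            constructor
            · positivity
            · nlinarith
        exact fun x => hsub x.2
      · intro x y z a b _ _ hab hz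
        simp only [hω0]
        have : (z : V₀) - e 3 = a • ((x : V₀) - e 3) + b • ((y : V₀) - e 3) := by
          rw [hz]
          have : e 3 = (a + b) • e 3 := by rw [hab, one_smul]
          nth_rewrite 1 [this]
          module
        rw [this]; simp
    obtain ⟨η, hη, hηω⟩ : ω0 ∈ g'.toFun '' g'.dom := by rw [g'.onto]; exact hω0m
    have hηT := g'.dom_subset hη
    have hmem : ∀ i, A i ∈ hull (vtx 5) := fun i => hull_sub A hA (subset_convexHull ℝ _ ⟨i, rfl⟩)
    have e2m : e 2 ∈ hull e := subset_convexHull ℝ _ ⟨2, rfl⟩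
    have e3m : e 3 ∈ hull e := subset_convexHull ℝ _ ⟨3, rfl⟩
    have k2 := hcompat η hη ⟨A 2, hmem 2⟩ ⟨e 2, e2m⟩ m2 v2
    have k3 := hcompat η hη ⟨A 3, hmem 3⟩ ⟨e 3, e3m⟩ m3 v3
    rw [hηω] at k2 k3
    have l2 : ω0 ⟨e 2, e2m⟩ = 1 := by simp only [hω0]; rw [hφe]; simp
    have l3 : ω0 ⟨e 3, e3m⟩ = 0 := by simp only [hω0]; rw [hφe]; simp
    rw [l2] at k2
    rw [l3] at k3
    have vm : ∀ j, vtx 5 j ∈ hull (vtx 5) := fun j => subset_convexHull ℝ _ ⟨j, rfl⟩
    have a2 := hηT.2 ⟨vtx 5 2, vm 2⟩ ⟨vtx 5 4, vm 4⟩ ⟨A 2, hmem 2⟩ (1 / 3) (2 / 3) (by norm_num)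
      (by norm_num) (by norm_num) (by
        funext i
        fin_cases i <;> simp [A, vtx])
    have a3 := hηT.2 ⟨vtx 5 3, vm 3⟩ ⟨vtx 5 4, vm 4⟩ ⟨A 3, hmem 3⟩ (1 / 3) (2 / 3) (by norm_num)
      (by norm_num) (by norm_num) (by
        funext i
        fin_cases i <;> simp [A, vtx])
    have b2 := hηT.1 ⟨vtx 5 2, vm 2⟩
    have b3 := hηT.1 ⟨vtx 5 3, vm 3⟩
    have b4 := hηT.1 ⟨vtx 5 4, vm 4⟩
    rw [← k2] at a2
    rw [← k3] at a3
    linarith [b2.1, b2.2, b3.1, b3.2, b4.1, b4.2]

end Pool.Agent.Results.MP_b12348_gt.NoFactorisation
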